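import Pool.Agent.Q269.ShaFour.Curves
import Pool.Agent.TH841.SH.Wt

/-!
# Project CondFour: the corank and the 2-isogeny
-/

set_option autoImplicit false
set_option linter.unusedSectionVars false

namespace Pool.Agent.Q269.CondFour

open WeierstrassCurve

open Pool.Agent.TH841.SH (Bd)

open Pool.Agent.TH841.SH.D (Sha HasDiv Pruf)

open Pool.Agent.TH841.LS (WI)

open Pool.Agent.TH841.PT (EQ isR_EQ)

open Pool.Agent.W307.RT (Sh)

open Pool.Agent.Y676.IS

open Pool.Agent.Q269.ShaFour Pool.Agent.Q269.IsoFour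

lemma pruf_div (x : Pruf) : ∃ y : Pruf, y + y = x := by
  obtain ⟨r, rfl⟩ := QuotientAddGroup.mk_surjective x
  refine ⟨QuotientAddGroup.mk (r / 2), ?_⟩
  rw [← QuotientAddGroup.mk_add]
  congr 1
  ring

lemma pruf_fin : Finite (V2 Pruf) := by
  have h : ∀ x : Pruf, x + x = 0 → x = 0 ∨ x = QuotientAddGroup.mk (1 / 2) := by
    intro x hx
    obtain ⟨r, rfl⟩ := QuotientAddGroup.mk_surjective x
    rw [← QuotientAddGroup.mk_add, QuotientAddGroup.eq_zero_iff] at hx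
    have h1 : ‖r + r‖ ≤ 1 := hx
    obtain ⟨a, ha⟩ : ∃ a : ℤ_[2], (a : ℚ_[2]) = r + r := ⟨⟨r + r, h1⟩, rfl⟩
    have h2 : ‖(2 : ℚ_[2])‖ = 2⁻¹ := by
      have := Padic.norm_p (p := 2)
      exact_mod_cast this
    have h3 : ‖((2 : ℤ_[2]))‖ = 2⁻¹ := by
      have := PadicInt.norm_p (p := 2)
      exact_mod_cast this
    -- the residue of a
    have h4 : ∃ (i : ℕ) (b : ℤ_[2]), i < 2 ∧ a = i + 2 * b := by
      have h5 := PadicInt.appr_spec 1 a
      rw [pow_one, Ideal.mem_span_singleton] at h5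
      obtain ⟨b, hb⟩ := h5
      refine ⟨a.appr 1, b, ?_, ?_⟩
      · have := PadicInt.appr_lt a 1
        simpa using this
      · have e1 : ((2 : ℕ) : ℤ_[2]) = 2 := by norm_num
        rw [e1] at hb
        linear_combination hb
    obtain ⟨i, b, hi, hab⟩ := h4
    have h6 : r = (i : ℚ_[2]) / 2 + b := by
      have h7 : (a : ℚ_[2]) = i + 2 * b := by
        rw [hab, PadicInt.coe_add, PadicInt.coe_mul, PadicInt.coe_natCast]
        rfl
      rw [ha] at h7
      linear_combination h7 / 2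
    have hb : (b : ℚ_[2]) ∈ (PadicInt.subring 2).toAddSubgroup := b.2
    interval_cases i
    · left
      rw [QuotientAddGroup.eq_zero_iff, h6]
      simp only [Nat.cast_zero, zero_div, zero_add]
      exact hb
    · right
      rw [QuotientAddGroup.eq, h6]
      have : -(((1 : ℕ) : ℚ_[2]) / 2 + (b : ℚ_[2])) + 1 / 2 = -(b : ℚ_[2]) := by
        push_cast
        ring
      rw [this]
      exact neg_mem hb
  classical
  refine Finite.of_injective (β := Bool)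
    (fun x => decide ((x : V2 Pruf).1 = 0)) (fun x y hxy => ?_)
  have hxy' : ((x : Pruf) = 0) ↔ ((y : Pruf) = 0) := by
    simpa using hxy
  rcases h x.1 (mem_V2.1 x.2) with h1 | h1 <;> rcases h y.1 (mem_V2.1 y.2) with h2 | h2
  · exact Subtype.ext (h1.trans h2.symm)
  · exact Subtype.ext (h1.trans (hxy'.1 h1).symm)
  · exact Subtype.ext ((hxy'.2 h2).trans h2.symm)
  · exact Subtype.ext (h1.trans h2.symm)

/-- a homomorphism from `(ℚ₂ / ℤ₂) ^ q` with the kernel killed by two -/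
theorem quot_pruf {q : ℕ} {S : Type} [AddCommGroup S] (hS : Finite (V2 S))
    (f : (Fin q → Pruf) →+ S) (hf : ∀ x, f x = 0 → x + x = 0) : 2 ^ q ≤ Nat.card (V2 S) := by
  have hG : Finite (V2 (Fin q → Pruf)) := by
    have h1 := pruf_fin
    refine Finite.of_injective (β := Fin q → V2 Pruf)
      (fun x i => ⟨x.1 i, congrFun (mem_V2.1 x.2) i⟩) (fun x y hxy => ?_)
    apply Subtype.ext
    funext i
    exact congrArg Subtype.val (congrFun hxy i)
  have hG2 : 2 ^ q ≤ Nat.card (V2 (Fin q → Pruf)) :=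
    Pool.Agent.TH841.SH.card_pruf (G := Fin q → Pruf) hG q (AddMonoidHom.id _)
      Function.injective_id
  have hK : Finite f.ker := Finite.of_injective (β := V2 (Fin q → Pruf))
    (fun x => ⟨x.1, mem_V2.2 (hf x.1 (AddMonoidHom.mem_ker.1 x.2))⟩) (fun x y hxy => by
      have h0 := Subtype.ext_iff.1 hxy
      exact Subtype.ext h0)
  let M : AddSubgroup (Fin q → Pruf) := (V2 S).comap f
  have hM : ∀ x : Fin q → Pruf, x ∈ M ↔ f x + f x = 0 := fun x => Iff.rfl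
  let h1 : M →+ V2 S :=
    { toFun := fun x => ⟨f x.1, x.2⟩
      map_zero' := Subtype.ext (map_zero f)
      map_add' := fun x y => Subtype.ext (map_add f x.1 y.1) }
  let h2 : M →+ f.ker :=
    { toFun := fun x => ⟨x.1 + x.1, by
        rw [AddMonoidHom.mem_ker, map_add]
        exact (hM _).1 x.2⟩
      map_zero' := Subtype.ext (add_zero 0)
      map_add' := fun x y => Subtype.ext (by
        change (x.1 + y.1) + (x.1 + y.1) = (x.1 + x.1) + (y.1 + y.1)
        abel) }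
  -- the kernels
  have k1 : ∀ x : M, x ∈ h1.ker ↔ f x.1 = 0 := fun x => by
    rw [AddMonoidHom.mem_ker]
    exact ⟨fun h => congrArg Subtype.val h, fun h => Subtype.ext h⟩
  have k2 : ∀ x : M, x ∈ h2.ker ↔ x.1 + x.1 = 0 := fun x => by
    rw [AddMonoidHom.mem_ker]
    exact ⟨fun h => congrArg Subtype.val h, fun h => Subtype.ext h⟩
  have i1 : Function.Injective (fun x : h1.ker => (⟨x.1.1, (k1 x.1).1 x.2⟩ : f.ker)) := by
    intro x y hxy
    have h0 := Subtype.ext_iff.1 hxy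
    exact Subtype.ext (Subtype.ext h0)
  have i2 : Function.Injective
      (fun x : h2.ker => (⟨x.1.1, mem_V2.2 ((k2 x.1).1 x.2)⟩ : V2 (Fin q → Pruf))) := by
    intro x y hxy
    have h0 := Subtype.ext_iff.1 hxy
    exact Subtype.ext (Subtype.ext h0)
  have i3 : Function.Surjective
      (fun x : h2.ker => (⟨x.1.1, mem_V2.2 ((k2 x.1).1 x.2)⟩ : V2 (Fin q → Pruf))) := by
    intro y
    have hy : y.1 + y.1 = 0 := mem_V2.1 y.2
    have hyM : y.1 ∈ M := by
      rw [hM, ← map_add, hy, map_zero]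
    exact ⟨⟨⟨y.1, hyM⟩, (k2 _).2 hy⟩, rfl⟩
  have s2 : Function.Surjective h2 := by
    intro y
    choose g hg using pruf_div
    have h3 : (fun i => g (y.1 i)) + (fun i => g (y.1 i)) = y.1 := by
      funext i
      exact hg _
    have hyM : (fun i => g (y.1 i)) ∈ M := by
      rw [hM, ← map_add, h3]
      exact AddMonoidHom.mem_ker.1 y.2
    exact ⟨⟨_, hyM⟩, Subtype.ext h3⟩
  have f1 : Finite h1.ker := Finite.of_injective _ i1
  have f2 : Finite h2.ker := Finite.of_injective _ i2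
  obtain ⟨-, c1⟩ := fin_card h1 f1 (Finite.of_injective _ Subtype.val_injective)
  obtain ⟨-, c2⟩ := fin_card h2 f2 (Finite.of_injective _ Subtype.val_injective)
  have e2 : Nat.card h2.ker = Nat.card (V2 (Fin q → Pruf)) :=
    Nat.card_congr (Equiv.ofBijective _ ⟨i2, i3⟩)
  have e3 : Nat.card h2.range = Nat.card f.ker := by
    rw [AddMonoidHom.range_eq_top.2 s2]
    exact Nat.card_congr (Equiv.Set.univ _)
  have e4 : Nat.card h1.ker ≤ Nat.card f.ker := Nat.card_le_card_of_injective _ i1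
  have e5 : Nat.card h1.range ≤ Nat.card (V2 S) :=
    Nat.card_le_card_of_injective _ Subtype.val_injective
  rw [e2, e3] at c2
  have hpos : 0 < Nat.card f.ker := Nat.card_pos
  have h5 : Nat.card (V2 (Fin q → Pruf)) * Nat.card f.ker ≤ Nat.card (V2 S) * Nat.card f.ker := by
    rw [← c2, c1, mul_comm (Nat.card (V2 S))]
    exact Nat.mul_le_mul e4 e5
  exact hG2.trans (Nat.le_of_mul_le_mul_right h5 hpos)

/-- the model `EQ` -/
theorem vr_EQ {e s : ℤ} : Pool.Agent.Y700.VR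
    (Sh (-3 * e ^ 2 - 4 * s ^ 2) (2 * e ^ 3 - 8 * e * s ^ 2))
    (EQ (3 * e + 2 * s) (3 * e - 2 * s)) 1 (-2 * (e : ℚ)) 0 0 := by
  refine ⟨one_ne_zero, ?_, ?_, ?_, ?_, ?_⟩
  · simp [Sh, EQ]
  · simp only [Sh, EQ]; push_cast; ring
  · simp [Sh, EQ]
  · simp only [Sh, EQ]; push_cast; ring
  · simp only [Sh, EQ]; push_cast; ring

theorem delta_EQ {A B : ℤ} (hA : A ≠ 0) (hB : B ≠ 0) (hAB : A ≠ B) : (EQ A B).Δ ≠ 0 := by
  have h1 : (EQ A B).Δ = 16 * ((A : ℚ) * B * (A - B)) ^ 2 := by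
    simp only [EQ, WeierstrassCurve.Δ, WeierstrassCurve.b₂, WeierstrassCurve.b₄,
      WeierstrassCurve.b₆, WeierstrassCurve.b₈]
    ring
  rw [h1]
  have a1 : (A : ℚ) ≠ 0 := by exact_mod_cast hA
  have a2 : (B : ℚ) ≠ 0 := by exact_mod_cast hB
  have a3 : (A : ℚ) - B ≠ 0 := sub_ne_zero.2 (by exact_mod_cast hAB)
  exact mul_ne_zero (by norm_num) (pow_ne_zero 2 (mul_ne_zero (mul_ne_zero a1 a2) a3))

/-- scaling -/
theorem vr_scale {A B A' B' : ℤ} {u : ℤ} (hu : u ≠ 0) (hA : A = u ^ 4 * A')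
    (hB : B = u ^ 6 * B') : Pool.Agent.Y700.VR (Sh A B) (Sh A' B') (u : ℚ) 0 0 0 := by
  refine ⟨by exact_mod_cast hu, ?_, ?_, ?_, ?_, ?_⟩ <;> simp [Sh, hA, hB]

/-- **the rank and the corank of the isogenous curve** -/
theorem corank_le {c : ℤ × ℤ} {d : (ℤ × ℤ) × ℤ} (hR : FR c d) (hD : Dn c) (hDd : Dn d.1)
    {N : ℝ} (hN : Bd (Sh d.1.1 d.1.2) N) {q : ℕ} (hq : HasDiv (Sh c.1 c.2) q) (hrk : rk c ≤ rk d.1) :
    (2 : ℝ) ^ (rk c + q) ≤ N := by
  obtain ⟨e, s, u, ⟨h1, h2⟩, hu, -, h4, h5⟩ := hR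
  have g1 : s ^ 2 - 3 * e ^ 2 = 1 ^ 4 * c.1 := by rw [h1]; ring
  have g2 : 2 * e ^ 3 - s ^ 2 * e = 1 ^ 6 * c.2 := by rw [h2]; ring
  obtain ⟨n1, n2, n3⟩ := par_ne hD g1 g2 one_ne_zero
  obtain ⟨⟨f1⟩, -⟩ := to_WI (r := e) hD one_ne_zero (by ring) g1 g2
  obtain ⟨f2⟩ := sha_vr vr_EQ (delta_EQ n1 n2 n3)
  obtain ⟨f3⟩ := sha_vr (vr_scale hu.ne' h4 h5) (sh_ne hDd)
  obtain ⟨ψ, φ, p1, -, -⟩ := exists_NH n3 n1 n2
  -- the homomorphism
  let g : Sha (Sh c.1 c.2) →+ Sha (Sh d.1.1 d.1.2) :=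
    (f3.symm.toAddMonoidHom.comp f2.toAddMonoidHom).comp (ψ.sha.comp f1.symm.toAddMonoidHom)
  have hg : ∀ x, g x = 0 → x + x = 0 := by
    intro x hx
    have h6 : f3.symm (f2 (ψ.sha (f1.symm x))) = 0 := hx
    rw [EmbeddingLike.map_eq_zero_iff, EmbeddingLike.map_eq_zero_iff] at h6
    have h7 := sha_comp_two ψ φ p1 (f1.symm x)
    rw [h6, map_zero] at h7
    have h8 := congrArg f1 h7
    rw [map_zero, map_add, f1.apply_symm_apply] at h8
    exact h8.symm
  obtain ⟨F, hF⟩ := hq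
  have hN1 := hN.fin 1
  have hN2 := hN.wt_le le_rfl
  unfold Pool.Agent.TH841.SH.wt at hN2
  rw [Nat.cast_one, div_one, Real.rpow_one] at hN2
  -- the elements of order two
  have e0 : ∀ x : Sha (Sh d.1.1 d.1.2), 2 ^ 1 • x = 0 ↔ x ∈ V2 (Sha (Sh d.1.1 d.1.2)) := by
    intro x
    rw [mem_V2, pow_one, two_nsmul]
  have e1 : V2 (Sha (Sh d.1.1 d.1.2)) ≃ Pool.Agent.TH841.SH.D.ShaTor (Sh d.1.1 d.1.2) (2 ^ 1) :=
    Equiv.subtypeEquivRight (fun x => (e0 x).symm)
  have hfin : Finite (V2 (Sha (Sh d.1.1 d.1.2))) := Finite.of_equiv _ e1.symm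
  have hq2 := quot_pruf hfin (g.comp F) (fun x hx => by
    have h6 := hg _ hx
    rw [← map_add] at h6
    exact hF (h6.trans (map_zero F).symm))
  rw [Nat.card_congr e1] at hq2
  have h7 : ((2 : ℝ) ^ q) ≤
      (Nat.card (Pool.Agent.TH841.SH.D.ShaTor (Sh d.1.1 d.1.2) (2 ^ 1)) : ℝ) := by
    exact_mod_cast hq2
  rw [pow_add]
  refine le_trans ?_ hN2
  exact mul_le_mul (pow_le_pow_right₀ (by norm_num) hrk) h7 (by positivity) (by positivity)

end Pool.Agent.Q269.CondFour
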