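import Pool.Agent.Q269.CondFour.Alg
import Pool.Agent.Q269.FieldFour.Rank
import Pool.Agent.TH498.CO.Lim

/-!
# Project CondFour: the conductor and the 2-isogeny
-/

set_option autoImplicit false
set_option linter.unusedSectionVars false

namespace Pool.Agent.Q269.CondFour

open Finset WeierstrassCurve

open Pool.Agent.W307.RT (Sh HasT)

open Pool.Agent.Q269.ShaFour Pool.Agent.Q269.IsoFour

open Pool.Agent.H925R.Szpiro (D IsMin FullS condS fullS_int)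

/-- the discriminant -/
def dsc (c : ℤ × ℤ) : ℤ := 4 * c.1 ^ 3 + 27 * c.2 ^ 2

/-- the prime-to-6 part of the conductor -/
def cond6 (c : ℤ × ℤ) : ℕ :=
  ∏ p ∈ (dsc c).natAbs.primeFactors.filter (fun p => 5 ≤ p), if (p : ℤ) ∣ c.1 then p ^ 2 else p

lemma cond_lib (c : ℤ × ℤ) : condS (-c.1) (-c.2) = cond6 c := by
  unfold condS cond6
  have h1 : (D (-c.1) (-c.2)).natAbs = (dsc c).natAbs := by
    unfold D dsc
    rw [← Int.natAbs_neg]
    congr 1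
    ring
  rw [h1]
  apply prod_congr rfl
  intro p _
  simp only [dvd_neg]

lemma disc_lib (c : ℤ × ℤ) : |((D (-c.1) (-c.2) : ℤ) : ℝ)| = |((dsc c : ℤ) : ℝ)| := by
  have : D (-c.1) (-c.2) = -dsc c := by
    unfold D dsc
    ring
  rw [this, Int.cast_neg, abs_neg]

theorem min_lib {c : ℤ × ℤ} : IsMin (-c.1) (-c.2) ↔ Dn c ∧ Mn c := by
  have hD : ∀ a b : ℤ, D (-a) (-b) = -(4 * a ^ 3 + 27 * b ^ 2) := by
    intro a b
    unfold D
    ring
  constructor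
  · rintro ⟨h1, h2⟩
    have h1' : 4 * c.1 ^ 3 + 27 * c.2 ^ 2 ≠ 0 := by
      rw [hD] at h1
      exact neg_ne_zero.1 h1
    refine ⟨h1', fun p hp => ?_⟩
    rintro ⟨⟨a, ha⟩, b, hb⟩
    have hp0 : (p : ℚ) ≠ 0 := by exact_mod_cast hp.ne_zero
    have h3 := h2 (1 / p) (-a) (-b) (by positivity) (by
      rw [ha]
      push_cast
      field_simp) (by
      rw [hb]
      push_cast
      field_simp)
    rw [hD, hD, abs_neg, abs_neg] at h3
    have h4 : 4 * c.1 ^ 3 + 27 * c.2 ^ 2 = (p : ℤ) ^ 12 * (4 * a ^ 3 + 27 * b ^ 2) := by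
      rw [ha, hb]
      ring
    have h5 : 4 * a ^ 3 + 27 * b ^ 2 ≠ 0 := by
      intro h
      rw [h, mul_zero] at h4
      exact h1' h4
    rw [h4, abs_mul, abs_of_nonneg (by positivity : (0 : ℤ) ≤ (p : ℤ) ^ 12)] at h3
    have h6 : 0 < |4 * a ^ 3 + 27 * b ^ 2| := abs_pos.2 h5
    have h7 : (2 : ℤ) ^ 12 ≤ (p : ℤ) ^ 12 :=
      pow_le_pow_left₀ (by norm_num) (by exact_mod_cast hp.two_le) 12
    nlinarith
  · rintro ⟨h1, h2⟩
    refine ⟨by rw [hD]; exact neg_ne_zero.2 h1, ?_⟩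
    intro u a' b' hu ha hb
    rw [hD]
    have hD' : D a' b' = -(4 * (-a') ^ 3 + 27 * (-b') ^ 2) := by
      rw [← hD, neg_neg, neg_neg]
    rw [hD', abs_neg, abs_neg]
    -- u is an integer
    have hden : u.den = 1 := by
      by_contra hne
      obtain ⟨p, hp, hpd⟩ := Nat.exists_prime_and_dvd hne
      apply h2 p hp
      have hu' : u * u.den = u.num := Rat.mul_den_eq_num u
      have e1 : (u.den : ℤ) ^ 4 * (-a') = u.num ^ 4 * c.1 := by
        have : ((u.den : ℤ) : ℚ) ^ 4 * (-a') = (u.num : ℚ) ^ 4 * c.1 := by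
          rw [← hu', ha]
          push_cast
          ring
        exact_mod_cast this
      have e2 : (u.den : ℤ) ^ 6 * (-b') = u.num ^ 6 * c.2 := by
        have : ((u.den : ℤ) : ℚ) ^ 6 * (-b') = (u.num : ℚ) ^ 6 * c.2 := by
          rw [← hu', hb]
          push_cast
          ring
        exact_mod_cast this
      have hcop : IsCoprime (p : ℤ) u.num := by
        rw [Int.isCoprime_iff_gcd_eq_one]
        have h3 := u.reduced
        have h4 : Nat.Coprime p u.num.natAbs := (Nat.Coprime.coprime_dvd_right hpd h3).symm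
        simpa [Int.gcd] using h4
      have hpd' : (p : ℤ) ∣ u.den := by exact_mod_cast hpd
      constructor
      · have h3 : (p : ℤ) ^ 4 ∣ u.num ^ 4 * c.1 := by
          rw [← e1]
          exact Dvd.dvd.mul_right (pow_dvd_pow_of_dvd hpd' 4) _
        exact (hcop.pow (m := 4) (n := 4)).dvd_of_dvd_mul_left h3
      · have h3 : (p : ℤ) ^ 6 ∣ u.num ^ 6 * c.2 := by
          rw [← e2]
          exact Dvd.dvd.mul_right (pow_dvd_pow_of_dvd hpd' 6) _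
        exact (hcop.pow (m := 6) (n := 6)).dvd_of_dvd_mul_left h3
    have hui : u = (u.num : ℚ) := by
      conv_lhs => rw [← Rat.num_div_den u, hden]
      simp
    have hn0 : u.num ≠ 0 := Rat.num_ne_zero.2 hu
    have e1 : -a' = u.num ^ 4 * c.1 := by
      have : ((-a' : ℤ) : ℚ) = (u.num : ℚ) ^ 4 * c.1 := by
        push_cast
        rw [ha, ← hui]
        push_cast
        ring
      exact_mod_cast this
    have e2 : -b' = u.num ^ 6 * c.2 := by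
      have : ((-b' : ℤ) : ℚ) = (u.num : ℚ) ^ 6 * c.2 := by
        push_cast
        rw [hb, ← hui]
        push_cast
        ring
      exact_mod_cast this
    rw [e1, e2]
    have e3 : 4 * (u.num ^ 4 * c.1) ^ 3 + 27 * (u.num ^ 6 * c.2) ^ 2 =
      u.num ^ 12 * (4 * c.1 ^ 3 + 27 * c.2 ^ 2) := by ring
    rw [e3, abs_mul]
    have h3 : 1 ≤ |u.num ^ 12| := Int.one_le_abs (pow_ne_zero 12 hn0)
    nlinarith [abs_nonneg (4 * c.1 ^ 3 + 27 * c.2 ^ 2)]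

theorem full_lib {c : ℤ × ℤ} (hD : Dn c) : FullS (-c.1) (-c.2) ↔ HasT 2 (Sh c.1 c.2) := by
  constructor
  · intro h
    obtain ⟨e1, e2, e3, hs, ha, hb⟩ := fullS_int _ _ h
    have h1 : c.1 = e1 * e2 + e1 * e3 + e2 * e3 := by linarith
    have h2 : c.2 = -(e1 * e2 * e3) := by linarith
    have hd : 4 * c.1 ^ 3 + 27 * c.2 ^ 2 = -((e1 - e2) * (e1 - e3) * (e2 - e3)) ^ 2 := by
      have : e3 = -e1 - e2 := by linarith
      rw [h1, h2, this]
      ring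
    have hne : (e1 - e2) * (e1 - e3) * (e2 - e3) ≠ 0 := by
      intro h0
      apply hD
      rw [hd, h0]
      ring
    have h12 : e1 ≠ e2 := by
      rintro rfl
      apply hne
      ring
    have h13 : e1 ≠ e3 := by
      rintro rfl
      apply hne
      ring
    have h23 : e2 ≠ e3 := by
      rintro rfl
      apply hne
      ring
    exact full_of_roots hs h12 h13 h23 h1 h2
  · intro h
    obtain ⟨r1, r2, r3, hs, -, -, -, hA, hB⟩ := roots_of_full hD h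
    refine ⟨r1, r2, r3, fun x => ?_⟩
    have hs' : (r1 : ℚ) + r2 + r3 = 0 := by exact_mod_cast hs
    rw [hA, hB]
    push_cast
    linear_combination x ^ 2 * hs'

/-! ### Primes -/

lemma ndvd {p : ℕ} (_ : p.Prime) (h5 : 5 ≤ p) : ¬ (p : ℤ) ∣ 2 ∧ ¬ (p : ℤ) ∣ 3 := by
  constructor
  · intro h
    have h1 : (p : ℤ) ≤ 2 := Int.le_of_dvd (by norm_num) h
    omega
  · intro h
    have h1 : (p : ℤ) ≤ 3 := Int.le_of_dvd (by norm_num) h
    omega

lemma key {c c' : ℤ × ℤ} {e s w u : ℤ} (h1 : s ^ 2 - 3 * e ^ 2 = w ^ 4 * c.1)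
    (h2 : 2 * e ^ 3 - s ^ 2 * e = w ^ 6 * c.2) (h3 : -3 * e ^ 2 - 4 * s ^ 2 = u ^ 4 * c'.1)
    (h4 : 2 * e ^ 3 - 8 * e * s ^ 2 = u ^ 6 * c'.2) {p : ℕ} (hp : p.Prime) (h5 : 5 ≤ p)
    (hw : ¬ (p : ℤ) ∣ w) (hu : ¬ (p : ℤ) ∣ u) :
    ((p : ℤ) ∣ dsc c ↔ (p : ℤ) ∣ dsc c') ∧ ((p : ℤ) ∣ dsc c → ((p : ℤ) ∣ c.1 ↔ (p : ℤ) ∣ c'.1)) := by
  obtain ⟨n2, n3⟩ := ndvd hp h5
  have hP : Prime (p : ℤ) := Nat.prime_iff_prime_int.1 hp
  have e1 : w ^ 12 * dsc c = s ^ 4 * (4 * s ^ 2 - 9 * e ^ 2) := by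
    have : w ^ 12 * dsc c = 4 * (w ^ 4 * c.1) ^ 3 + 27 * (w ^ 6 * c.2) ^ 2 := by
      unfold dsc
      ring
    rw [this, ← h1, ← h2]
    ring
  have e2 : u ^ 12 * dsc c' = -(2 ^ 4 * (s ^ 2 * (4 * s ^ 2 - 9 * e ^ 2) ^ 2)) := by
    have : u ^ 12 * dsc c' = 4 * (u ^ 4 * c'.1) ^ 3 + 27 * (u ^ 6 * c'.2) ^ 2 := by
      unfold dsc
      ring
    rw [this, ← h3, ← h4]
    ring
  have cancel : ∀ {x y : ℤ} (n : ℕ), ¬ (p : ℤ) ∣ x → ((p : ℤ) ∣ x ^ n * y ↔ (p : ℤ) ∣ y) := by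
    intro x y n hx
    constructor
    · intro h
      rcases hP.dvd_or_dvd h with h | h
      · exact absurd (hP.dvd_of_dvd_pow h) hx
      · exact h
    · intro h
      exact Dvd.dvd.mul_left h _
  have g1 : (p : ℤ) ∣ dsc c ↔ (p : ℤ) ∣ s ∨ (p : ℤ) ∣ (4 * s ^ 2 - 9 * e ^ 2) := by
    rw [← cancel 12 hw, e1]
    constructor
    · intro h
      rcases hP.dvd_or_dvd h with h | h
      · exact Or.inl (hP.dvd_of_dvd_pow h)
      · exact Or.inr h
    · rintro (h | h)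
      · exact Dvd.dvd.mul_right (dvd_pow h (by norm_num)) _
      · exact Dvd.dvd.mul_left h _
  have g2 : (p : ℤ) ∣ dsc c' ↔ (p : ℤ) ∣ s ∨ (p : ℤ) ∣ (4 * s ^ 2 - 9 * e ^ 2) := by
    rw [← cancel 12 hu, e2, dvd_neg, cancel 4 n2]
    constructor
    · intro h
      rcases hP.dvd_or_dvd h with h | h
      · exact Or.inl (hP.dvd_of_dvd_pow h)
      · exact Or.inr (hP.dvd_of_dvd_pow h)
    · rintro (h | h)
      · exact Dvd.dvd.mul_right (dvd_pow h (by norm_num)) _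
      · exact Dvd.dvd.mul_left (dvd_pow h (by norm_num)) _
  refine ⟨g1.trans g2.symm, fun h => ?_⟩
  have k1 : (p : ℤ) ∣ c.1 ↔ (p : ℤ) ∣ e := by
    rw [← cancel 4 hw, ← h1]
    rcases g1.1 h with h | h
    · have e3 : s ^ 2 - 3 * e ^ 2 = s * s - 3 * e ^ 2 := by ring
      rw [e3, dvd_sub_right (Dvd.dvd.mul_right h _)]
      constructor
      · intro h6
        rcases hP.dvd_or_dvd h6 with h6 | h6
        · exact absurd h6 n3
        · exact hP.dvd_of_dvd_pow h6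
      · intro h6
        exact Dvd.dvd.mul_left (dvd_pow h6 (by norm_num)) _
    · rw [← cancel 2 n2]
      have e3 : 2 ^ 2 * (s ^ 2 - 3 * e ^ 2) = (4 * s ^ 2 - 9 * e ^ 2) - 3 * e ^ 2 * -1 * -1 := by
        ring
      rw [e3, dvd_sub_right h]
      have e4 : 3 * e ^ 2 * -1 * -1 = 3 * e ^ 2 := by ring
      rw [e4]
      constructor
      · intro h6
        rcases hP.dvd_or_dvd h6 with h6 | h6
        · exact absurd h6 n3
        · exact hP.dvd_of_dvd_pow h6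
      · intro h6
        exact Dvd.dvd.mul_left (dvd_pow h6 (by norm_num)) _
  have k2 : (p : ℤ) ∣ c'.1 ↔ (p : ℤ) ∣ e := by
    rw [← cancel 4 hu, ← h3]
    rcases g1.1 h with h | h
    · have e3 : -3 * e ^ 2 - 4 * s ^ 2 = s * (-4 * s) - 3 * e ^ 2 := by ring
      rw [e3, dvd_sub_right (Dvd.dvd.mul_right h _)]
      constructor
      · intro h6
        rcases hP.dvd_or_dvd h6 with h6 | h6
        · exact absurd h6 n3
        · exact hP.dvd_of_dvd_pow h6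
      · intro h6
        exact Dvd.dvd.mul_left (dvd_pow h6 (by norm_num)) _
    · have e3 : -3 * e ^ 2 - 4 * s ^ 2 = (4 * s ^ 2 - 9 * e ^ 2) * -1 - 2 ^ 2 * (3 * e ^ 2) := by
        ring
      rw [e3, dvd_sub_right (Dvd.dvd.mul_right h _), cancel 2 n2]
      constructor
      · intro h6
        rcases hP.dvd_or_dvd h6 with h6 | h6
        · exact absurd h6 n3
        · exact hP.dvd_of_dvd_pow h6
      · intro h6
        exact Dvd.dvd.mul_left (dvd_pow h6 (by norm_num)) _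
  exact k1.trans k2.symm

theorem cond_eq {c c' : ℤ × ℤ} {e s w u : ℤ} (h1 : s ^ 2 - 3 * e ^ 2 = w ^ 4 * c.1)
    (h2 : 2 * e ^ 3 - s ^ 2 * e = w ^ 6 * c.2) (h3 : -3 * e ^ 2 - 4 * s ^ 2 = u ^ 4 * c'.1)
    (h4 : 2 * e ^ 3 - 8 * e * s ^ 2 = u ^ 6 * c'.2) (hD : Dn c) (hD' : Dn c')
    (hw : ∀ p : ℕ, p.Prime → 5 ≤ p → ¬ (p : ℤ) ∣ w)
    (hu : ∀ p : ℕ, p.Prime → 5 ≤ p → ¬ (p : ℤ) ∣ u) : cond6 c = cond6 c' := by
  have hD1 : dsc c ≠ 0 := hD
  have hD1' : dsc c' ≠ 0 := hD'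
  unfold cond6
  have hset : (dsc c).natAbs.primeFactors.filter (fun p => 5 ≤ p) =
      (dsc c').natAbs.primeFactors.filter (fun p => 5 ≤ p) := by
    ext p
    rw [mem_filter, mem_filter, Nat.mem_primeFactors, Nat.mem_primeFactors]
    constructor
    · rintro ⟨⟨hp, hd, -⟩, h5⟩
      refine ⟨⟨hp, ?_, Int.natAbs_ne_zero.2 hD1'⟩, h5⟩
      rw [← Int.natCast_dvd] at hd ⊢
      exact (key h1 h2 h3 h4 hp h5 (hw p hp h5) (hu p hp h5)).1.1 hd
    · rintro ⟨⟨hp, hd, -⟩, h5⟩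
      refine ⟨⟨hp, ?_, Int.natAbs_ne_zero.2 hD1⟩, h5⟩
      rw [← Int.natCast_dvd] at hd ⊢
      exact (key h1 h2 h3 h4 hp h5 (hw p hp h5) (hu p hp h5)).1.2 hd
  rw [← hset]
  apply prod_congr rfl
  intro p hp
  rw [mem_filter, Nat.mem_primeFactors] at hp
  obtain ⟨⟨hp, hd, -⟩, h5⟩ := hp
  rw [← Int.natCast_dvd] at hd
  have h6 := (key h1 h2 h3 h4 hp h5 (hw p hp h5) (hu p hp h5)).2 hd
  by_cases h7 : (p : ℤ) ∣ c.1
  · rw [if_pos h7, if_pos (h6.1 h7)]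
  · rw [if_neg h7, if_neg (fun h8 => h7 (h6.2 h8))]

lemma cop {p : ℕ} (hp : p.Prime) (h5 : 5 ≤ p) (m n : ℕ) : IsCoprime ((p : ℤ) ^ m) ((2 : ℤ) ^ n) := by
  apply IsCoprime.pow
  rw [Int.isCoprime_iff_gcd_eq_one]
  have h : Nat.Coprime p 2 := by
    rw [Nat.Prime.coprime_iff_not_dvd hp]
    intro h
    have := Nat.le_of_dvd (by norm_num) h
    omega
  exact h

lemma sq_of {x y : ℤ} (h : x ^ 4 ∣ y ^ 2) : x ^ 2 ∣ y := by
  have h1 : (x ^ 2) ^ 2 ∣ y ^ 2 := by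
    rw [← pow_mul]
    exact h
  exact (Int.pow_dvd_pow_iff (by norm_num)).1 h1

/-- the data of the isogeny -/
theorem data_FR {c : ℤ × ℤ} {d : (ℤ × ℤ) × ℤ} (h : FR c d) (hD : Dn c) (hM : Mn c) (hDd : Dn d.1) :
    cond6 c = cond6 d.1 ∧ |dsc d.1| ≤ 16 * dsc c ^ 2 := by
  obtain ⟨e, s, u, ⟨h1, h2⟩, hu, h3, h4, h5⟩ := h
  have hs : s ≠ 0 := by
    rintro rfl
    apply hD
    rw [h1, h2]
    ring
  constructor
  · refine cond_eq (w := 1) (by rw [h1]; ring) (by rw [h2]; ring) h4 h5 hD hDd ?_ ?_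
    · intro p hp h5 h6
      have := Int.le_of_dvd (by norm_num) h6
      omega
    · intro p hp h5' hpu
      have a1 : (p : ℤ) ^ 2 ∣ 2 ^ 1 * e := by
        have : (p : ℤ) ^ 2 ∣ -2 * e := by
          rw [h3]
          exact Dvd.dvd.mul_right (pow_dvd_pow_of_dvd hpu 2) _
        have e1 : 2 ^ 1 * e = -(-2 * e) := by ring
        rw [e1, dvd_neg]
        exact this
      have a2 : (p : ℤ) ^ 2 ∣ e := (cop hp h5' 2 1).dvd_of_dvd_mul_left a1
      have a3 : (p : ℤ) ^ 4 ∣ -3 * e ^ 2 - 4 * s ^ 2 := by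
        rw [h4]
        exact Dvd.dvd.mul_right (pow_dvd_pow_of_dvd hpu 4) _
      have a4 : (p : ℤ) ^ 4 ∣ e ^ 2 := by
        have := pow_dvd_pow_of_dvd a2 2
        rwa [← pow_mul] at this
      have a5 : (p : ℤ) ^ 4 ∣ (2 * s) ^ 2 := by
        have e1 : (2 * s) ^ 2 = -(-3 * e ^ 2 - 4 * s ^ 2) - 3 * e ^ 2 := by ring
        rw [e1]
        exact dvd_sub ((dvd_neg).2 a3) (Dvd.dvd.mul_left a4 _)
      have a6 : (p : ℤ) ^ 2 ∣ s := by
        have := sq_of a5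
        rw [← pow_one (2 : ℤ)] at this
        exact (cop hp h5' 2 1).dvd_of_dvd_mul_left this
      obtain ⟨x, hx⟩ := a2
      obtain ⟨y, hy⟩ := a6
      apply hM p hp
      constructor
      · rw [h1, hx, hy]
        exact ⟨y ^ 2 - 3 * x ^ 2, by ring⟩
      · rw [h2, hx, hy]
        exact ⟨2 * x ^ 3 - y ^ 2 * x, by ring⟩
  · obtain ⟨m, hm⟩ : ∃ m, m = 4 * s ^ 2 - 9 * e ^ 2 := ⟨_, rfl⟩
    have e1 : dsc c = s ^ 4 * m := by
      unfold dsc
      rw [h1, h2, hm]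
      ring
    have e2 : u ^ 12 * dsc d.1 = -(16 * (s ^ 2 * m ^ 2)) := by
      have : u ^ 12 * dsc d.1 = 4 * (u ^ 4 * d.1.1) ^ 3 + 27 * (u ^ 6 * d.1.2) ^ 2 := by
        unfold dsc
        ring
      rw [this, ← h4, ← h5, hm]
      ring
    have e3 : |dsc d.1| ≤ |u ^ 12 * dsc d.1| := by
      rw [abs_mul, abs_of_nonneg (by positivity : (0 : ℤ) ≤ u ^ 12)]
      have : 1 ≤ u ^ 12 := one_le_pow₀ hu
      nlinarith [abs_nonneg (dsc d.1)]
    refine e3.trans ?_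
    rw [e2, abs_neg, abs_of_nonneg (by positivity), e1]
    have h6 : 1 ≤ s ^ 2 := by
      have := sq_pos_of_ne_zero hs
      omega
    have h7 : s ^ 2 * 1 ≤ s ^ 2 * (s ^ 2) ^ 3 :=
      mul_le_mul_of_nonneg_left (one_le_pow₀ h6) (sq_nonneg s)
    have h8 : s ^ 2 * m ^ 2 ≤ s ^ 2 * (s ^ 2) ^ 3 * m ^ 2 := by
      have := mul_le_mul_of_nonneg_right h7 (sq_nonneg m)
      rwa [mul_one] at this
    calc 16 * (s ^ 2 * m ^ 2) ≤ 16 * (s ^ 2 * (s ^ 2) ^ 3 * m ^ 2) := by linarith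
      _ = 16 * (s ^ 4 * m) ^ 2 := by ring

theorem data_RR {c : ℤ × ℤ} {d : (ℤ × ℤ) × ℤ} (h : RR c d) (hD : Dn c) (hM : Mn c) (hDd : Dn d.1) :
    cond6 d.1 = cond6 c ∧ |dsc d.1| ≤ 2 ^ 16 * dsc c ^ 2 := by
  obtain ⟨e, s, w, hw, h1, h2, h3, h4, h5⟩ := h
  have e1 : 2 ^ 8 * dsc c = -(s ^ 2 * (4 * s ^ 2 - 9 * e ^ 2) ^ 2) := by
    have : 2 ^ 4 * (2 ^ 8 * dsc c) = 4 * (2 ^ 4 * c.1) ^ 3 + 27 * (2 ^ 6 * c.2) ^ 2 := by
      unfold dsc
      ring
    rw [← h1, ← h2] at this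
    have h6 : (2 : ℤ) ^ 4 * (2 ^ 8 * dsc c) = 2 ^ 4 *
        (-(s ^ 2 * (4 * s ^ 2 - 9 * e ^ 2) ^ 2)) := by
      rw [this]
      ring
    exact mul_left_cancel₀ (by norm_num) h6
  constructor
  · refine cond_eq (u := 2) h4 h5 h1 h2 hDd hD ?_ ?_
    · intro p hp h5' hpw
      have a2 : (p : ℤ) ^ 2 ∣ e := by
        rw [h3]
        exact Dvd.dvd.mul_right (pow_dvd_pow_of_dvd hpw 2) _
      have a3 : (p : ℤ) ^ 4 ∣ s ^ 2 - 3 * e ^ 2 := by
        rw [h4]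
        exact Dvd.dvd.mul_right (pow_dvd_pow_of_dvd hpw 4) _
      have a4 : (p : ℤ) ^ 4 ∣ e ^ 2 := by
        have := pow_dvd_pow_of_dvd a2 2
        rwa [← pow_mul] at this
      have a5 : (p : ℤ) ^ 4 ∣ s ^ 2 := by
        have e1 : s ^ 2 = (s ^ 2 - 3 * e ^ 2) + 3 * e ^ 2 := by ring
        rw [e1]
        exact dvd_add a3 (Dvd.dvd.mul_left a4 _)
      have a6 : (p : ℤ) ^ 2 ∣ s := sq_of a5
      obtain ⟨x, hx⟩ := a2
      obtain ⟨y, hy⟩ := a6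
      apply hM p hp
      constructor
      · have : (p : ℤ) ^ 4 ∣ 2 ^ 4 * c.1 := by
          rw [← h1, hx, hy]
          exact ⟨-3 * x ^ 2 - 4 * y ^ 2, by ring⟩
        exact (cop hp h5' 4 4).dvd_of_dvd_mul_left this
      · have : (p : ℤ) ^ 6 ∣ 2 ^ 6 * c.2 := by
          rw [← h2, hx, hy]
          exact ⟨2 * x ^ 3 - 8 * x * y ^ 2, by ring⟩
        exact (cop hp h5' 6 6).dvd_of_dvd_mul_left this
    · intro p hp h5' h6
      exact (ndvd hp h5').1 h6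
  · obtain ⟨m, hm⟩ : ∃ m, m = 4 * s ^ 2 - 9 * e ^ 2 := ⟨_, rfl⟩
    rw [← hm] at e1
    have hd0 : dsc c ≠ 0 := hD
    have hs : s ≠ 0 := by
      rintro rfl
      apply hd0
      have : (2 : ℤ) ^ 8 * dsc c = 0 := by rw [e1]; ring
      exact (mul_eq_zero.1 this).resolve_left (by norm_num)
    have hm0 : m ≠ 0 := by
      intro h0
      apply hd0
      have : (2 : ℤ) ^ 8 * dsc c = 0 := by rw [e1, h0]; ring
      exact (mul_eq_zero.1 this).resolve_left (by norm_num)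
    have e2 : w ^ 12 * dsc d.1 = s ^ 4 * m := by
      have : w ^ 12 * dsc d.1 = 4 * (w ^ 4 * d.1.1) ^ 3 + 27 * (w ^ 6 * d.1.2) ^ 2 := by
        unfold dsc
        ring
      rw [this, ← h4, ← h5, hm]
      ring
    have e3 : |dsc d.1| ≤ |w ^ 12 * dsc d.1| := by
      rw [abs_mul, abs_of_nonneg (by positivity : (0 : ℤ) ≤ w ^ 12)]
      have : 1 ≤ w ^ 12 := one_le_pow₀ hw
      nlinarith [abs_nonneg (dsc d.1)]
    refine e3.trans ?_
    rw [e2, abs_mul, abs_of_nonneg (by positivity : (0 : ℤ) ≤ s ^ 4)]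
    have h6 : 1 ≤ |m| := Int.one_le_abs hm0
    have h7 : |m| ≤ m ^ 4 := by
      have : m ^ 4 = |m| ^ 4 := by
        rw [← abs_pow, abs_of_nonneg (by positivity)]
      rw [this]
      exact le_self_pow₀ h6 (by norm_num)
    calc s ^ 4 * |m| ≤ s ^ 4 * m ^ 4 := mul_le_mul_of_nonneg_left h7 (by positivity)
      _ = (-(s ^ 2 * m ^ 2)) ^ 2 := by ring
      _ = (2 ^ 8 * dsc c) ^ 2 := by rw [e1]
      _ = 2 ^ 16 * dsc c ^ 2 := by ring

end Pool.Agent.Q269.CondFour
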