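import Pool.Agent.Q269.CondFour.Cond

/-!
# Project CondFour: the family ordered by the conductor
-/

set_option autoImplicit false
set_option linter.unusedSectionVars false

namespace Pool.Agent.Q269.CondFour

open Finset WeierstrassCurve

open Pool.Agent.W307.RT (Sh HasT)

open Pool.Agent.Q269.ShaFour Pool.Agent.Q269.IsoFour

open Pool.Agent.H925R.Szpiro (D IsMin FullS condS)

open Pool.Agent.TH498.CO (CL Fc fc_fin fc_upper lims)

open Pool.Agent.TH841.SH (Bd)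

/-- minimal models of the curves with a cyclic subgroup of order four -/
def B4 (c : ℤ × ℤ) : Prop := Dn c ∧ Mn c ∧ ∃ e s : ℤ, Pr c e s

/-- `f` differs from the prime-to-6 part of the conductor by a bounded factor -/
def CL4 (f : ℤ × ℤ → ℝ) : Prop := ∀ c : ℤ × ℤ, B4 c →
  (cond6 c : ℝ) ≤ f c ∧ f c ≤ 2 ^ 8 * 3 ^ 5 * (cond6 c : ℝ)

/-- the family -/
def F4c (f : ℤ × ℤ → ℝ) (K N : ℝ) : Set (ℤ × ℤ) :=
  {c | B4 c ∧ f c ≤ N ∧ |((dsc c : ℤ) : ℝ)| ≤ N ^ K}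

/-- the prime-to-6 part of the conductor -/
def cS (a b : ℤ) : ℝ := (condS a b : ℝ)

lemma cS_cl : CL cS := by
  intro a b _ _
  unfold cS
  have : (0 : ℝ) ≤ (condS a b : ℝ) := Nat.cast_nonneg _
  refine ⟨le_rfl, ?_⟩
  nlinarith

/-- the relation -/
def Gd (c : ℤ × ℤ) (d : (ℤ × ℤ) × ℤ) : Prop := FR c d ∧ Dn d.1 ∧ Mn d.1 ∧
  HasT 2 (Sh d.1.1 d.1.2) ∧ d.2 ^ 3 + d.1.1 * d.2 + d.1.2 = 0 ∧ rk c ≤ rk d.1

lemma exists_Gd {c : ℤ × ℤ} (hc : B4 c) : ∃ d, Gd c d := by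
  obtain ⟨h1, -, e, s, hP⟩ := hc
  obtain ⟨d, g1, g2, g3, -, g5, g6, g7⟩ := exists_fwd h1 hP
  exact ⟨d, g1, g2, g3, g5, g6, g7⟩

lemma Gd_inj {c1 c2 : ℤ × ℤ} {d : (ℤ × ℤ) × ℤ} (h1 : Gd c1 d) (h2 : Gd c2 d) (b1 : B4 c1)
    (b2 : B4 c2) : c1 = c2 := FR_inj h1.1 h2.1 b1.2.1 b2.2.1

/-- the change of the sign -/
def nu (c : ℤ × ℤ) : ℤ × ℤ := (-c.1, -c.2)

lemma nu_nu (c : ℤ × ℤ) : nu (nu c) = c := by
  unfold nu
  simp

lemma nu_inj : Function.Injective nu := fun a b h => by rw [← nu_nu a, h, nu_nu]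

lemma fwd_mem {f : ℤ × ℤ → ℝ} (hf : CL4 f) {K N : ℝ} (hN : 16 ≤ N) {c : ℤ × ℤ}
    (hc : c ∈ F4c f K N) {d : (ℤ × ℤ) × ℤ} (h : Gd c d) : nu d.1 ∈ Fc cS (2 * K + 1) N := by
  obtain ⟨hb, h1, h2⟩ := hc
  obtain ⟨g1, g2, g3, g4, g5, g6⟩ := h
  obtain ⟨k1, k2⟩ := data_FR g1 hb.1 hb.2.1 g2
  have hN0 : 0 < N := by linarith
  refine ⟨min_lib.2 ⟨g2, g3⟩, (full_lib g2).2 g4, ?_, ?_⟩
  · have e1 : cS (nu d.1).1 (nu d.1).2 = (cond6 d.1 : ℝ) := by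
      unfold cS nu
      rw [cond_lib]
    rw [e1, ← k1]
    exact (hf c hb).1.trans h1
  · have e1 : |((D (nu d.1).1 (nu d.1).2 : ℤ) : ℝ)| = |((dsc d.1 : ℤ) : ℝ)| := disc_lib d.1
    rw [e1]
    have e2 : |((dsc d.1 : ℤ) : ℝ)| ≤ 16 * ((dsc c : ℤ) : ℝ) ^ 2 := by exact_mod_cast k2
    have e3 : ((dsc c : ℤ) : ℝ) ^ 2 ≤ (N ^ K) ^ 2 := by
      rw [← sq_abs]
      exact pow_le_pow_left₀ (abs_nonneg _) h2 2
    have e4 : N ^ (2 * K + 1) = (N ^ K) ^ 2 * N := by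
      rw [Real.rpow_add hN0, Real.rpow_one, mul_comm 2 K, Real.rpow_mul hN0.le]
      norm_num
    have e5 : 0 ≤ (N ^ K) ^ 2 := sq_nonneg _
    rw [e4]
    nlinarith

lemma exists_H (c : ℤ × ℤ) : ∃ H : ℕ, Hl H c := by
  refine ⟨(4 * |c.1| ^ 3 + 27 * c.2 ^ 2).toNat, ?_, ?_⟩
  · have h1 : 0 ≤ 4 * |c.1| ^ 3 := by positivity
    have h2 : 0 ≤ 27 * c.2 ^ 2 := by positivity
    rw [Int.toNat_of_nonneg (by linarith)]
    linarith
  · have h1 : 0 ≤ 4 * |c.1| ^ 3 := by positivity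
    have h2 : 0 ≤ 27 * c.2 ^ 2 := by positivity
    rw [Int.toNat_of_nonneg (by linarith)]
    linarith

lemma rev_mem {f : ℤ × ℤ → ℝ} (hf : CL4 f) {K N : ℝ} (hK : 4 ≤ K) (hN : 62208 ≤ N) {q : ℤ × ℤ}
    (hq : q ∈ Fc cS 2 (N / 62208)) : ∃ d : (ℤ × ℤ) × ℤ, RR (nu q) d ∧ d.1 ∈ F4c f K N ∧
      d.2 ^ 3 + d.1.1 * d.2 + d.1.2 = 0 := by
  obtain ⟨h1, h2, h3, h4⟩ := hq
  have hq' : q = (-(nu q).1, -(nu q).2) := (nu_nu q).symm
  have e0 : ∀ P : ℤ → ℤ → Prop, P q.1 q.2 ↔ P (-(nu q).1) (-(nu q).2) := fun P => by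
    conv_lhs => rw [hq']
  rw [e0 IsMin, min_lib] at h1
  obtain ⟨a1, a2⟩ := h1
  rw [e0 FullS, full_lib a1] at h2
  obtain ⟨H, hH⟩ := exists_H (nu q)
  obtain ⟨d, r1, r2, r3, -, r5, r6, -⟩ := exists_rev a1 h2 hH
  obtain ⟨k1, k2⟩ := data_RR r1 a1 a2 r2
  have hN0 : 0 < N := by linarith
  have hb : B4 d.1 := ⟨r2, r3, r5⟩
  refine ⟨d, r1, ⟨hb, ?_, ?_⟩, r6⟩
  · have e1 : cS q.1 q.2 = (cond6 (nu q) : ℝ) := by
      unfold cS
      rw [← cond_lib (nu q)]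
      congr 2 <;> simp [nu]
    rw [e1, ← k1, le_div_iff₀ (by norm_num)] at h3
    have := (hf d.1 hb).2
    norm_num at this ⊢
    linarith
  · have e1 : |((D q.1 q.2 : ℤ) : ℝ)| = |((dsc (nu q) : ℤ) : ℝ)| := by
      rw [← disc_lib]
      congr 3 <;> simp [nu]
    rw [e1] at h4
    have e2 : |((dsc d.1 : ℤ) : ℝ)| ≤ 2 ^ 16 * ((dsc (nu q) : ℤ) : ℝ) ^ 2 := by exact_mod_cast k2
    have e3 : ((dsc (nu q) : ℤ) : ℝ) ^ 2 ≤ ((N / 62208) ^ (2 : ℝ)) ^ 2 := by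
      rw [← sq_abs]
      exact pow_le_pow_left₀ (abs_nonneg _) h4 2
    have e4 : ((N / 62208) ^ (2 : ℝ)) ^ 2 = (N / 62208) ^ 4 := by
      have : ((2 : ℝ)) = ((2 : ℕ) : ℝ) := by norm_num
      rw [this, Real.rpow_natCast, ← pow_mul]
    rw [e4] at e3
    have e5 : (2 : ℝ) ^ 16 * (N / 62208) ^ 4 ≤ N ^ 4 := by
      rw [div_pow, ← mul_div_assoc, div_le_iff₀ (by positivity), mul_comm]
      exact mul_le_mul_of_nonneg_left (by norm_num) (by positivity)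
    have e6 : N ^ 4 ≤ N ^ K := by
      have : N ^ (4 : ℝ) ≤ N ^ K := Real.rpow_le_rpow_of_exponent_le (by linarith) hK
      have h5 : N ^ (4 : ℝ) = N ^ 4 := by
        have : ((4 : ℝ)) = ((4 : ℕ) : ℝ) := by norm_num
        rw [this, Real.rpow_natCast]
      rwa [h5] at this
    linarith

/-- the family is finite -/
theorem fin4 {f : ℤ × ℤ → ℝ} (hf : CL4 f) {K N : ℝ} (hK : 4 ≤ K) (hN : 4 * 10 ^ 7 ≤ N) :
    (F4c f K N).Finite := by
  have hfin := (fc_fin cS_cl (K := 2 * K + 1) (by linarith) hN).1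
  have hex : ∀ c, ∃ d, B4 c → Gd c d := by
    intro c
    by_cases h : B4 c
    · obtain ⟨d, hd⟩ := exists_Gd h
      exact ⟨d, fun _ => hd⟩
    · exact ⟨((0, 0), 0), fun h' => absurd h' h⟩
  choose G hG using hex
  refine Set.Finite.of_injOn (f := fun c => (nu (G c).1, idx (G c).1 (G c).2))
    (t := Fc cS (2 * K + 1) N ×ˢ (Set.univ : Set (Fin 3))) ?_ ?_ (hfin.prod Set.finite_univ)
  · intro c hc
    exact ⟨fwd_mem hf (by linarith) hc (hG c hc.1), Set.mem_univ _⟩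
  · intro c1 h1 c2 h2 h
    have r1 := hG c1 h1.1
    have r2 := hG c2 h2.1
    simp only [Prod.mk.injEq] at h
    obtain ⟨ha, hb⟩ := h
    have ha' := nu_inj ha
    have hc : (G c1).2 = (G c2).2 := by
      have q1 := r1.2.2.2.2.1
      rw [ha'] at q1 hb
      exact idx_inj (G c2).1 q1 r2.2.2.2.2.1 hb
    have hd : G c1 = G c2 := Prod.ext ha' hc
    rw [hd] at r1
    exact Gd_inj r1 r2 h1.1 h2.1

/-- sums over the family -/
theorem fwd_sum {f : ℤ × ℤ → ℝ} (hf : CL4 f) {K N : ℝ} (hN : 16 ≤ N) {S A : Finset (ℤ × ℤ)}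
    (hA : ∀ c ∈ A, c ∈ F4c f K N) (hS : (S : Set (ℤ × ℤ)) = Fc cS (2 * K + 1) N)
    (P : ℤ × ℤ → Prop) [DecidablePred P] (g h : ℤ × ℤ → ℝ) (hh : ∀ q, 0 ≤ h q)
    (hg : ∀ c ∈ A, ∃ d, Gd c d ∧ P (nu d.1) ∧ g c ≤ h (nu d.1)) :
    ∑ c ∈ A, g c ≤ 3 * ∑ q ∈ S.filter P, h q := by
  classical
  have h1 := sum_rel A ((S.filter P).image nu) Gd g (fun c => h (nu c)) (fun c => hh _)
    (fun c hc => by
      obtain ⟨d, g1, g2, g3⟩ := hg c hc
      refine ⟨d, g1, ?_, g1.2.2.2.2.1, g3⟩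
      rw [mem_image]
      refine ⟨nu d.1, ?_, nu_nu _⟩
      rw [mem_filter]
      refine ⟨?_, g2⟩
      rw [← mem_coe, hS]
      exact fwd_mem hf hN (hA c hc) g1)
    (fun c1 h1 c2 h2 d r1 r2 => Gd_inj r1 r2 (hA c1 h1).1 (hA c2 h2).1)
  rw [sum_image (fun a _ b _ hab => nu_inj hab)] at h1
  simp only [nu_nu] at h1
  exact h1

/-- the number of the curves -/
theorem card4 (K : ℝ) (hK : 4 ≤ K) : ∃ a b : ℝ, 0 < a ∧ 0 < b ∧ ∀ f : ℤ × ℤ → ℝ, CL4 f →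
    ∀ N : ℝ, 62208 * (4 * 10 ^ 7) ≤ N → ∀ S : Finset (ℤ × ℤ), (S : Set (ℤ × ℤ)) = F4c f K N →
    a * N ^ ((2 : ℝ) / 3) ≤ (S.card : ℝ) ∧ (S.card : ℝ) ≤ b * N ^ ((2 : ℝ) / 3) := by
  classical
  obtain ⟨C, hC, hup⟩ := fc_upper (2 * K + 1) (by linarith)
  refine ⟨(1 / 62208) ^ ((2 : ℝ) / 3) / (3 * 10 ^ 6), 3 * C, by positivity, by positivity,
    fun f hf N hN S hS => ⟨?_, ?_⟩⟩
  · have hN1 : 4 * 10 ^ 7 ≤ N / 62208 := by
      rw [le_div_iff₀ (by norm_num)]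
      linarith
    obtain ⟨hfin, hlow⟩ := fc_fin cS_cl (K := 2) le_rfl hN1
    have g1 := hlow hfin.toFinset hfin.coe_toFinset
    have g2 := sum_rel (hfin.toFinset.image nu) S RR (fun _ => 1) (fun _ => 1)
      (fun _ => zero_le_one) (fun c hc => by
        rw [mem_image] at hc
        obtain ⟨q, hq, rfl⟩ := hc
        rw [Set.Finite.mem_toFinset] at hq
        obtain ⟨d, r1, r2, r3⟩ := rev_mem hf hK (by linarith) hq
        refine ⟨d, r1, ?_, r3, le_rfl⟩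
        rw [← mem_coe, hS]
        exact r2) (fun c1 h1 c2 h2 d r1 r2 => by
        rw [mem_image] at h1 h2
        obtain ⟨q1, hq1, rfl⟩ := h1
        obtain ⟨q2, hq2, rfl⟩ := h2
        rw [Set.Finite.mem_toFinset] at hq1 hq2
        have m1 : Mn (nu q1) := by
          have : IsMin (-(nu q1).1) (-(nu q1).2) := by
            have := hq1.1
            simpa [nu] using this
          exact (min_lib.1 this).2
        have m2 : Mn (nu q2) := by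
          have : IsMin (-(nu q2).1) (-(nu q2).2) := by
            have := hq2.1
            simpa [nu] using this
          exact (min_lib.1 this).2
        exact RR_inj r1 r2 m1 m2)
    simp only [sum_const, nsmul_eq_mul, mul_one] at g2
    rw [card_image_of_injective _ nu_inj] at g2
    have g3 : (N / 62208) ^ ((2 : ℝ) / 3) = (1 / 62208) ^ ((2 : ℝ) / 3) * N ^ ((2 : ℝ) / 3) := by
      rw [← Real.mul_rpow (by norm_num) (by linarith)]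
      congr 1
      ring
    rw [g3] at g1
    calc (1 / 62208 : ℝ) ^ ((2 : ℝ) / 3) / (3 * 10 ^ 6) * N ^ ((2 : ℝ) / 3)
        = ((1 / 62208 : ℝ) ^ ((2 : ℝ) / 3) * N ^ ((2 : ℝ) / 3) / 10 ^ 6) / 3 := by ring
      _ ≤ (S.card : ℝ) := by linarith
  · have hN1 : 4 * 10 ^ 7 ≤ N := by linarith
    have hfin := (fc_fin cS_cl (K := 2 * K + 1) (by linarith) hN1).1
    have g1 := fwd_sum hf (by linarith) (S := hfin.toFinset) (A := S)
      (fun c hc => by rw [← hS]; exact mem_coe.2 hc) hfin.coe_toFinset (fun _ => True)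
      (fun _ => 1) (fun _ => 1) (fun _ => zero_le_one) (fun c hc => by
        have : c ∈ F4c f K N := by rw [← hS]; exact mem_coe.2 hc
        obtain ⟨d, hd⟩ := exists_Gd this.1
        exact ⟨d, hd, trivial, le_rfl⟩)
    have g2 := hup cS cS_cl N hN1 hfin.toFinset hfin.coe_toFinset
    simp only [sum_const, nsmul_eq_mul, mul_one, filter_true] at g1
    linarith

open Classical in
/-- **the families off the exceptional set** -/
theorem main4 : ∃ (n : ℤ → ℤ × ℤ → ℝ) (Z : Set (ℤ × ℤ)),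
    (∀ c : ℤ × ℤ, Dn c → Mn c → HasT 2 (Sh c.1 c.2) → ∀ t : ℤ, t ≠ 0 →
      Bd (Sh (t ^ 2 * c.1) (t ^ 3 * c.2)) (n t (nu c))) ∧
    ∀ K : ℝ, 4 ≤ K →
    (∀ ε : ℝ, 0 < ε → ∃ N0 : ℝ, 62208 * (4 * 10 ^ 7) ≤ N0 ∧ ∀ f : ℤ × ℤ → ℝ, CL4 f →
      ∀ N : ℝ, N0 ≤ N → ∀ S : Finset (ℤ × ℤ), (S : Set (ℤ × ℤ)) = F4c f K N →
      ((S.filter fun c => c ∈ Z).card : ℝ) ≤ ε * S.card) ∧
    (∀ θ : ℝ, 0 < θ → ∀ A : ℝ, 0 ≤ A → ∃ C : ℝ, 1 ≤ C ∧ ∀ f : ℤ × ℤ → ℝ, CL4 f →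
      ∀ N : ℝ, 62208 * (4 * 10 ^ 7) ≤ N → ∀ S : Finset (ℤ × ℤ),
      (S : Set (ℤ × ℤ)) = F4c f K N → ∀ t : ℤ, t ≠ 0 → (t.natAbs : ℝ) ≤ N ^ A →
      ∀ g : ℤ × ℤ → ℝ, (∀ c ∈ S, ∀ d, Gd c d → g c ≤ n t (nu d.1) ^ θ) →
      ∑ c ∈ S.filter (fun c => c ∉ Z), g c ≤
        C * (16 * 512 ^ θ) ^ t.natAbs.primeFactors.card * S.card) := by
  obtain ⟨n, Ex, hn, hdens, hmom⟩ := lims
  refine ⟨fun t q => max (n t q) 0, {c | ∀ d, Gd c d → nu d.1 ∈ Ex}, ?_, fun K hK => ⟨?_, ?_⟩⟩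
  · intro c h1 h2 h3 t ht
    have h4 := (hn (nu c) (min_lib.2 ⟨h1, h2⟩) ((full_lib h1).2 h3)).1 t ht
    have e1 : Sh (t ^ 2 * (-(nu c).1)) (t ^ 3 * (-(nu c).2)) =
        Sh (t ^ 2 * c.1) (t ^ 3 * c.2) := by
      simp [nu]
    rw [e1] at h4
    exact ⟨h4.1, h4.2.trans (le_max_left _ _)⟩
  · intro ε hε
    obtain ⟨a, b, ha, hb, hcard⟩ := card4 K hK
    obtain ⟨C, hC, hup⟩ := fc_upper (2 * K + 1) (by linarith)
    obtain ⟨N0, hN0, h⟩ := hdens (2 * K + 1) (by linarith) (ε * a / (3 * C)) (by positivity)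
    refine ⟨max N0 (62208 * (4 * 10 ^ 7)), le_max_right _ _, fun f hf N hN S hS => ?_⟩
    have hN1 := (le_max_left _ _).trans hN
    have hN2 := (le_max_right _ _).trans hN
    have hN3 : 4 * 10 ^ 7 ≤ N := by linarith
    have hfin := (fc_fin cS_cl (K := 2 * K + 1) (by linarith) hN3).1
    have g0 := (hcard f hf N hN2 S hS).1
    have g1 := fwd_sum hf (by linarith) (S := hfin.toFinset)
      (A := S.filter fun c => c ∈ {c | ∀ d, Gd c d → nu d.1 ∈ Ex})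
      (fun c hc => by rw [← hS]; exact mem_coe.2 (mem_filter.1 hc).1) hfin.coe_toFinset
      (fun q => q ∈ Ex) (fun _ => 1) (fun _ => 1) (fun _ => zero_le_one) (fun c hc => by
        obtain ⟨hc1, hc2⟩ := mem_filter.1 hc
        have : c ∈ F4c f K N := by rw [← hS]; exact mem_coe.2 hc1
        obtain ⟨d, hd⟩ := exists_Gd this.1
        exact ⟨d, hd, hc2 d hd, le_rfl⟩)
    have g2 := hup cS cS_cl N hN3 hfin.toFinset hfin.coe_toFinset
    have g3 := h cS cS_cl N hN1 hfin.toFinset hfin.coe_toFinset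
    simp only [sum_const, nsmul_eq_mul, mul_one] at g1
    calc (((S.filter fun c => c ∈ {c | ∀ d, Gd c d → nu d.1 ∈ Ex}).card : ℕ) : ℝ)
        ≤ 3 * (ε * a / (3 * C) * (hfin.toFinset.card : ℝ)) := by linarith
      _ ≤ 3 * (ε * a / (3 * C) * (C * N ^ ((2 : ℝ) / 3))) := by gcongr
      _ = ε * (a * N ^ ((2 : ℝ) / 3)) := by field_simp
      _ ≤ ε * S.card := mul_le_mul_of_nonneg_left g0 hε.le
  · intro θ hθ A hA
    obtain ⟨a, b, ha, hb, hcard⟩ := card4 K hK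
    obtain ⟨C, hC, hup⟩ := fc_upper (2 * K + 1) (by linarith)
    obtain ⟨M, hM, h⟩ := hmom θ hθ (2 * K + 1) A (by linarith) hA
    refine ⟨1 + 3 * M * C / a, by
      have : 0 ≤ 3 * M * C / a := by positivity
      linarith, fun f hf N hN S hS t ht htN g hg => ?_⟩
    have hN3 : 4 * 10 ^ 7 ≤ N := by linarith
    have hfin := (fc_fin cS_cl (K := 2 * K + 1) (by linarith) hN3).1
    have g0 := (hcard f hf N hN S hS).1
    have g1 := fwd_sum hf (by linarith) (S := hfin.toFinset)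
      (A := S.filter fun c => c ∉ {c | ∀ d, Gd c d → nu d.1 ∈ Ex})
      (fun c hc => by rw [← hS]; exact mem_coe.2 (mem_filter.1 hc).1) hfin.coe_toFinset
      (fun q => q ∉ Ex) g (fun q => max (n t q) 0 ^ θ)
      (fun q => Real.rpow_nonneg (le_max_right _ _) _) (fun c hc => by
        obtain ⟨hc1, hc2⟩ := mem_filter.1 hc
        have : ∃ d, Gd c d ∧ nu d.1 ∉ Ex := by
          by_contra hcon
          push Not at hcon
          exact hc2 hcon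
        obtain ⟨d, hd, hdE⟩ := this
        exact ⟨d, hd, hdE, hg c hc1 d hd⟩)
    have g2 := hup cS cS_cl N hN3 hfin.toFinset hfin.coe_toFinset
    have g3 := h cS cS_cl N hN3 hfin.toFinset hfin.coe_toFinset t ht htN
    have g4 : ∑ q ∈ hfin.toFinset.filter (fun q => q ∉ Ex), max (n t q) 0 ^ θ =
        ∑ q ∈ hfin.toFinset.filter (fun q => q ∉ Ex), n t q ^ θ := by
      apply sum_congr rfl
      intro q hq
      have hq1 := (mem_filter.1 hq).1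
      rw [Set.Finite.mem_toFinset] at hq1
      have h5 := (hn q hq1.1 hq1.2.1).1 t ht
      have h6 := Pool.Agent.TH498.CO.one_le_of_bd h5
      rw [max_eq_left (by linarith)]
    rw [g4] at g1
    obtain ⟨W, hW⟩ : ∃ W : ℝ, W = (16 * 512 ^ θ) ^ t.natAbs.primeFactors.card := ⟨_, rfl⟩
    have hW0 : 0 ≤ W := by rw [hW]; positivity
    rw [← hW] at g3 ⊢
    calc ∑ c ∈ S.filter (fun c => c ∉ {c | ∀ d, Gd c d → nu d.1 ∈ Ex}), g c
        ≤ 3 * (M * W * (hfin.toFinset.card : ℝ)) := by linarith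
      _ ≤ 3 * (M * W * (C * N ^ ((2 : ℝ) / 3))) := by gcongr
      _ = 3 * M * C / a * W * (a * N ^ ((2 : ℝ) / 3)) := by field_simp
      _ ≤ 3 * M * C / a * W * S.card := by gcongr
      _ ≤ (1 + 3 * M * C / a) * W * S.card := by
        have : 0 ≤ W * (S.card : ℝ) := by positivity
        nlinarith

end Pool.Agent.Q269.CondFour
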